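import Mathlib
import Pool.Agent.Q297.PairMain

/-!
# MP_ee92c9_pr, Q2: the optimal pairwise coupling ratio is not 2

For every `q` in `(0, 1/1000]` the optimal pairwise coupling ratio of the family of all Borel
probability measures on the line, for the cost `|x - y| ^ q`, is at least `11/5 > 2`.
-/

open Pool.Agent.Q297.Pair
open scoped ENNReal

namespace Pool.Agent.Results.MP_ee92c9_pr.RatioAboveTwo

theorem result : ∀ q : ℝ, 0 < q → q ≤ 1 / 1000 → (11 / 5 : ℝ≥0∞) ≤ optRatio q :=
  fun _ h1 h2 => optRatio_ge h1 h2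

end Pool.Agent.Results.MP_ee92c9_pr.RatioAboveTwo
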